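import Mathlib

set_option autoImplicit false

namespace Pool.Agent.H773R2

open Filter Topology Set

universe u v

section Basic

variable {𝕜 : Type u} [RCLike 𝕜] {E : Type v} [SeminormedAddCommGroup E] [NormedSpace 𝕜 E]

/-- A bounded sequence of functionals which tends to zero on a set with dense linear span tends to
zero everywhere. -/
theorem tendsto_zero_of_span_dense (T : ℕ → StrongDual 𝕜 E) (C : ℝ) (hC : ∀ n, ‖T n‖ ≤ C)
    (s : Set E) (hs : ∀ x ∈ s, Tendsto (fun n => T n x) atTop (𝓝 0)) (e : E)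
    (he : e ∈ (Submodule.span 𝕜 s).topologicalClosure) :
    Tendsto (fun n => T n e) atTop (𝓝 0) := by
  have h1 : ∀ x ∈ Submodule.span 𝕜 s, Tendsto (fun n => T n x) atTop (𝓝 0) := by
    intro x hx
    induction hx using Submodule.span_induction with
    | mem x h => exact hs x h
    | zero => simp
    | add x y _ _ hx hy => simpa using hx.add hy
    | smul a x _ hx => simpa using hx.const_smul a
  have hC0 : 0 ≤ C := (norm_nonneg _).trans (hC 0)
  rw [Metric.tendsto_atTop]
  intro ε hε
  have he' : e ∈ closure (Submodule.span 𝕜 s : Set E) := he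
  obtain ⟨x, hx, hxe⟩ := Metric.mem_closure_iff.1 he' (ε / (2 * (C + 1))) (by positivity)
  obtain ⟨N, hN⟩ := (Metric.tendsto_atTop.1 (h1 x hx)) (ε / 2) (by positivity)
  refine ⟨N, fun n hn => ?_⟩
  have h2 := hN n hn
  rw [dist_zero_right] at h2 ⊢
  have h3 : T n e = T n (e - x) + T n x := by simp
  rw [h3]
  refine (norm_add_le _ _).trans_lt ?_
  have h4 : ‖T n (e - x)‖ ≤ ε / 2 := by
    refine ((T n).le_opNorm _).trans ?_
    rw [dist_eq_norm] at hxe
    calc ‖T n‖ * ‖e - x‖ ≤ (C + 1) * (ε / (2 * (C + 1))) := by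
          gcongr
          linarith [hC n]
      _ = ε / 2 := by field_simp
  linarith

end Basic

section WeakNull

variable {𝕜 : Type u} [RCLike 𝕜] {E : Type v} [NormedAddCommGroup E] [NormedSpace 𝕜 E]

/-- A bounded weak*-null sequence of functionals on a subspace of a separable space extends to a
bounded weak*-null sequence on the whole space. -/
theorem exists_null_extension [TopologicalSpace.SeparableSpace E] (Y : Submodule 𝕜 E)
    (φ : ℕ → StrongDual 𝕜 Y) (C : ℝ) (hC : ∀ n, ‖φ n‖ ≤ C)
    (h0 : ∀ y : Y, Tendsto (fun n => φ n y) atTop (𝓝 0)) :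
    ∃ f : ℕ → StrongDual 𝕜 E, (∀ n (y : Y), f n y = φ n y) ∧ (∀ n, ‖f n‖ ≤ 2 * C) ∧
      ∀ e, Tendsto (fun n => f n e) atTop (𝓝 0) := by
  classical
  have hC0 : 0 ≤ C := (norm_nonneg _).trans (hC 0)
  choose g hg hgn using fun n => exists_extension_norm_eq Y (φ n)
  let w : ℕ → E := TopologicalSpace.denseSeq E
  have hw : DenseRange w := TopologicalSpace.denseRange_denseSeq E
  let P : ℕ → ℕ → Prop := fun n k => ∃ h : StrongDual 𝕜 E, (∀ y : Y, h y = 0) ∧ ‖h‖ ≤ C ∧
    ∀ i < k, ‖g n (w i) - h (w i)‖ < 1 / ((k : ℝ) + 1)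
  have key : ∀ k, ∀ᶠ n in atTop, P n k := by
    intro k
    by_contra hcon
    rw [not_eventually] at hcon
    have hne : NeBot (atTop ⊓ 𝓟 {n | ¬ P n k}) := by
      rwa [← frequently_mem_iff_neBot]
    let U : Ultrafilter ℕ := Ultrafilter.of (atTop ⊓ 𝓟 {n | ¬ P n k})
    have hU : (U : Filter ℕ) ≤ atTop ⊓ 𝓟 {n | ¬ P n k} := Ultrafilter.of_le _
    have hU1 : (U : Filter ℕ) ≤ atTop := hU.trans inf_le_left
    have hU2 : ∀ᶠ n in (U : Filter ℕ), ¬ P n k := by
      have := hU.trans inf_le_right
      exact this (mem_principal_self _)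
    have hK := WeakDual.isCompact_closedBall (0 : StrongDual 𝕜 E) C
    have hmem : ∀ n, StrongDual.toWeakDual (g n) ∈
        WeakDual.toStrongDual ⁻¹' Metric.closedBall (0 : StrongDual 𝕜 E) C := by
      intro n
      simp only [mem_preimage, mem_closedBall_zero_iff]
      change ‖g n‖ ≤ C
      rw [hgn]
      exact hC n
    obtain ⟨h, hhK, hh⟩ := hK.ultrafilter_le_nhds' (U.map fun n => StrongDual.toWeakDual (g n))
      (by
        rw [Ultrafilter.mem_map]
        exact Filter.univ_mem' hmem)
    have hh' : Tendsto (fun n => StrongDual.toWeakDual (g n)) U (𝓝 h) := hh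
    have hpt : ∀ e, Tendsto (fun n => g n e) U (𝓝 (h e)) := fun e =>
      ((WeakDual.eval_continuous e).tendsto h).comp hh'
    have hPk : ∀ᶠ n in (U : Filter ℕ), P n k := by
      have h1 : ∀ᶠ n in (U : Filter ℕ), ∀ i ∈ Finset.range k,
          ‖g n (w i) - h (w i)‖ < 1 / ((k : ℝ) + 1) := by
        rw [Filter.eventually_all_finset]
        intro i _
        have := (hpt (w i))
        rw [Metric.tendsto_nhds] at this
        simpa [dist_eq_norm] using this (1 / ((k : ℝ) + 1)) (by positivity)
      filter_upwards [h1] with n hn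
      refine ⟨WeakDual.toStrongDual h, fun y => ?_, ?_, fun i hi => hn i (Finset.mem_range.2 hi)⟩
      · have h2 : Tendsto (fun n => g n (y : E)) U (𝓝 0) := by
          simp only [hg]
          exact (h0 y).mono_left hU1
        exact tendsto_nhds_unique (hpt y) h2
      · simpa using hhK
    obtain ⟨n, hn1, hn2⟩ := (hU2.and hPk).exists
    exact hn1 hn2
  have hP0 : ∀ n, P n 0 := fun n => ⟨0, by simp, by simpa using hC0, by simp⟩
  let K : ℕ → ℕ := fun n => Nat.findGreatest (P n) n
  have hK : ∀ n, P n (K n) := fun n => Nat.findGreatest_spec (P := P n) (Nat.zero_le n) (hP0 n)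
  choose h hh1 hh2 hh3 using hK
  have hKlim : Tendsto K atTop atTop := by
    rw [tendsto_atTop]
    intro k
    filter_upwards [key k, eventually_ge_atTop k] with n hn hkn
    exact Nat.le_findGreatest hkn hn
  have hb : ∀ n, ‖g n - h n‖ ≤ 2 * C := by
    intro n
    refine (norm_sub_le _ _).trans ?_
    have := hh2 n
    have h2 := hC n
    rw [← hgn n] at h2
    linarith
  refine ⟨fun n => g n - h n, fun n y => ?_, hb, ?_⟩
  · simp [hg, hh1]
  · intro e
    refine tendsto_zero_of_span_dense (fun n => g n - h n) (2 * C) hb (Set.range w) ?_ e ?_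
    · rintro _ ⟨i, rfl⟩
      have h1 : Tendsto (fun n => 1 / ((K n : ℝ) + 1)) atTop (𝓝 0) :=
        tendsto_one_div_add_atTop_nhds_zero_nat.comp hKlim
      refine squeeze_zero_norm' ?_ h1
      filter_upwards [hKlim.eventually_gt_atTop i] with n hn
      exact (hh3 n i hn).le
    · have : (Submodule.span 𝕜 (Set.range w)).topologicalClosure = ⊤ := by
        rw [← Submodule.dense_iff_topologicalClosure_eq_top]
        exact hw.mono Submodule.subset_span
      rw [this]
      trivial

/-- Hahn-Banach: separate a point from the closure of a subspace. -/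
theorem exists_functional {S : Submodule 𝕜 E} {u : E} (hu : u ∉ S.topologicalClosure) :
    ∃ h : StrongDual 𝕜 E, (∀ s ∈ S, h s = 0) ∧ h u = 1 := by
  have hne : ‖(Submodule.Quotient.mk u : E ⧸ S.topologicalClosure)‖ ≠ 0 := by
    have hcl : IsClosed (S.topologicalClosure : Set E) := S.isClosed_topologicalClosure
    rw [norm_ne_zero_iff]
    rwa [Ne, Submodule.Quotient.mk_eq_zero]
  obtain ⟨g, -, hg⟩ := exists_dual_vector 𝕜 (Submodule.Quotient.mk u : E ⧸ S.topologicalClosure) hne
  refine ⟨((‖(Submodule.Quotient.mk u : E ⧸ S.topologicalClosure)‖ : 𝕜)⁻¹) •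
    (g.comp S.topologicalClosure.mkQL), fun s hs => ?_, ?_⟩
  · have : (Submodule.Quotient.mk s : E ⧸ S.topologicalClosure) = 0 := by
      rw [Submodule.Quotient.mk_eq_zero]
      exact S.le_topologicalClosure hs
    simp [this]
  · have h2 : ((‖(Submodule.Quotient.mk u : E ⧸ S.topologicalClosure)‖ : 𝕜)) ≠ 0 := by
      exact_mod_cast hne
    simp only [_root_.smul_apply, ContinuousLinearMap.comp_apply,
      Submodule.mkQL_apply, smul_eq_mul]
    rw [Submodule.mkQ_apply, hg, inv_mul_cancel₀ h2]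

/-- Markushevich: from any sequence produce a biorthogonal system with the same closed span, modulo
a given subspace. Vanishing terms are allowed. -/
theorem exists_biorthogonal (Y : Submodule 𝕜 E) (w : ℕ → E) :
    ∃ (z : ℕ → E) (h : ℕ → StrongDual 𝕜 E), (∀ m, ∀ y ∈ Y, h m y = 0) ∧
      (∀ i j, i ≠ j → h i (z j) = 0) ∧ (∀ m, (z m = 0 ∧ h m = 0) ∨ h m (z m) = 1) ∧
      ∀ m, w m ∈ (Y ⊔ Submodule.span 𝕜 (Set.range z)).topologicalClosure := by
  classical
  let u : (m : ℕ) → ((j : ℕ) → j < m → E × StrongDual 𝕜 E) → E := fun m prev =>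
    w m - ∑ j : Fin m, (prev j j.2).2 (w m) • (prev j j.2).1
  let S : (m : ℕ) → ((j : ℕ) → j < m → E × StrongDual 𝕜 E) → Submodule 𝕜 E := fun m prev =>
    Y ⊔ Submodule.span 𝕜 (Set.range fun j : Fin m => (prev j j.2).1)
  let F : (m : ℕ) → ((j : ℕ) → j < m → E × StrongDual 𝕜 E) → E × StrongDual 𝕜 E := fun m prev =>
    if H : u m prev ∈ (S m prev).topologicalClosure then (0, 0)
    else (u m prev, (exists_functional H).choose)
  let p : ℕ → E × StrongDual 𝕜 E := Nat.lt_wfRel.wf.fix F
  have hp : ∀ m, p m = F m (fun j _ => p j) := fun m => WellFounded.fix_eq _ _ _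
  -- case analysis
  have hcase : ∀ m, (p m = (0, 0) ∧ u m (fun j _ => p j) ∈ (S m (fun j _ => p j)).topologicalClosure)
      ∨ ((p m).1 = u m (fun j _ => p j) ∧ (∀ s ∈ S m (fun j _ => p j), (p m).2 s = 0) ∧
        (p m).2 (p m).1 = 1) := by
    intro m
    by_cases H : u m (fun j _ => p j) ∈ (S m (fun j _ => p j)).topologicalClosure
    · left
      refine ⟨?_, H⟩
      rw [hp m]
      simp only [F, H, dif_pos]
    · right
      have : p m = (u m (fun j _ => p j), (exists_functional H).choose) := by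
        rw [hp m]
        simp only [F, H, dif_neg, not_false_eq_true]
      rw [this]
      exact ⟨rfl, (exists_functional H).choose_spec.1, (exists_functional H).choose_spec.2⟩
  have hY : ∀ m, ∀ y ∈ Y, (p m).2 y = 0 := by
    intro m y hy
    rcases hcase m with h | h
    · rw [h.1]; simp
    · exact h.2.1 y (Submodule.mem_sup_left hy)
  have hone : ∀ m, ((p m).1 = 0 ∧ (p m).2 = 0) ∨ (p m).2 (p m).1 = 1 := by
    intro m
    rcases hcase m with h | h
    · left; rw [h.1]; simp
    · right; exact h.2.2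
  have hlt : ∀ i j, j < i → (p i).2 (p j).1 = 0 := by
    intro i j hij
    rcases hcase i with h | h
    · rw [h.1]; simp
    · exact h.2.1 _ (Submodule.mem_sup_right (Submodule.subset_span ⟨⟨j, hij⟩, rfl⟩))
  have hgt : ∀ j i, i < j → (p i).2 (p j).1 = 0 := by
    intro j
    induction j using Nat.strong_induction_on with
    | _ j ih =>
      intro i hij
      rcases hcase j with h | h
      · rw [h.1]; simp
      · rw [h.1]
        simp only [u, map_sub, map_sum, map_smul, smul_eq_mul]
        rw [Finset.sum_eq_single (⟨i, hij⟩ : Fin j)]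
        · rcases hone i with h' | h'
          · rw [h'.2]; simp
          · rw [h']; simp
        · intro k _ hk
          have hki : (k : ℕ) ≠ i := fun h => hk (Fin.ext h)
          rcases lt_or_gt_of_ne hki with h' | h'
          · rw [hlt i k h', mul_zero]
          · rw [ih k k.2 i h', mul_zero]
        · intro h'
          exact absurd (Finset.mem_univ _) h'
  refine ⟨fun m => (p m).1, fun m => (p m).2, hY, ?_, hone, ?_⟩
  · intro i j hij
    rcases lt_or_gt_of_ne hij with h | h
    · exact hgt j i h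
    · exact hlt i j h
  · intro m
    have hle : S m (fun j _ => p j) ≤ Y ⊔ Submodule.span 𝕜 (Set.range fun m => (p m).1) := by
      refine sup_le_sup_left (Submodule.span_mono ?_) _
      rintro _ ⟨j, rfl⟩
      exact ⟨j, rfl⟩
    have hu : u m (fun j _ => p j) ∈
        (Y ⊔ Submodule.span 𝕜 (Set.range fun m => (p m).1)).topologicalClosure := by
      rcases hcase m with h | h
      · exact Submodule.topologicalClosure_mono hle h.2
      · rw [← h.1]
        exact Submodule.le_topologicalClosure _ (Submodule.mem_sup_right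
          (Submodule.subset_span ⟨m, rfl⟩))
    have hw : w m = u m (fun j _ => p j) + ∑ j : Fin m, (p j).2 (w m) • (p j).1 := by
      simp [u]
    rw [hw]
    refine Submodule.add_mem _ hu (Submodule.le_topologicalClosure _ ?_)
    refine Submodule.mem_sup_right (Submodule.sum_mem _ fun j _ => ?_)
    exact Submodule.smul_mem _ _ (Submodule.subset_span ⟨j, rfl⟩)

/-- Subtracting an absolutely convergent series of functionals. -/
theorem exists_sub_tsum (f : StrongDual 𝕜 E) (c : ℕ → 𝕜) (h : ℕ → StrongDual 𝕜 E) (B : ℝ)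
    (hs : Summable fun m => ‖c m‖ * ‖h m‖) (hB : ∑' m, ‖c m‖ * ‖h m‖ ≤ B) :
    ∃ f' : StrongDual 𝕜 E, (∀ e, HasSum (fun m => c m * h m e) (f e - f' e)) ∧ ‖f - f'‖ ≤ B := by
  have hs' : Summable fun m => ‖c m • h m‖ := by simpa [norm_smul] using hs
  have hsum : Summable fun m => c m • h m := hs'.of_norm
  refine ⟨f - ∑' m, c m • h m, fun e => ?_, ?_⟩
  · have h1 := hsum.hasSum.mapL (ContinuousLinearMap.apply 𝕜 𝕜 e)
    simpa using h1
  · have : f - (f - ∑' m, c m • h m) = ∑' m, c m • h m := by abel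
    rw [this]
    refine (norm_tsum_le_tsum_norm hs').trans ?_
    simpa [norm_smul] using hB

/-- The key step: given a weak*-null sequence of functionals biorthogonal to `x`, and a
biorthogonal system modulo `Y`, one can correct both slightly to become biorthogonal. -/
theorem dense_step (Y : Submodule 𝕜 E) (x : ℕ → E) (hx : ∀ n, x n ∈ Y) (f : ℕ → StrongDual 𝕜 E)
    (hfx : ∀ i j, f i (x j) = if i = j then 1 else 0)
    (hf0 : ∀ e, Tendsto (fun n => f n e) atTop (𝓝 0))
    (w : ℕ → E) (h : ℕ → StrongDual 𝕜 E) (hY : ∀ m, ∀ y ∈ Y, h m y = 0)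
    (hoff : ∀ i j, i ≠ j → h i (w j) = 0) (hone : ∀ m, (w m = 0 ∧ h m = 0) ∨ h m (w m) = 1)
    (ε : ℝ) (hε : 0 < ε) :
    ∃ (y : ℕ → E) (f' : ℕ → StrongDual 𝕜 E), (∀ m, y m ∈ Y) ∧ (∀ m, w m = 0 → y m = 0) ∧
      (∀ n, ∀ e ∈ Y, f' n e = f n e) ∧ (∀ n, ‖f n - f' n‖ ≤ ε) ∧
      (∀ n m, f' n (w m - y m) = 0) := by
  classical
  obtain ⟨δ, hδ0, hδs, hδ⟩ : ∃ δ : ℕ → ℝ, (∀ m, 0 < δ m) ∧ Summable δ ∧ ∑' m, δ m = ε := by
    refine ⟨fun m => ε / 2 / 2 ^ m, fun m => by positivity, summable_geometric_two' ε,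
      tsum_geometric_two' ε⟩
  have hN : ∀ m, ∃ N, ∀ n ≥ N, ‖f n (w m)‖ * ‖h m‖ ≤ δ m := by
    intro m
    have h1 : Tendsto (fun n => ‖f n (w m)‖ * ‖h m‖) atTop (𝓝 0) := by
      simpa using (hf0 (w m)).norm.mul_const ‖h m‖
    have := (h1.eventually_lt_const (hδ0 m))
    obtain ⟨N, hN⟩ := eventually_atTop.1 this
    exact ⟨N, fun n hn => (hN n hn).le⟩
  choose N hN using hN
  let y : ℕ → E := fun m => ∑ k ∈ Finset.range (N m), f k (w m) • x k
  have hy : ∀ m, y m ∈ Y := fun m => Submodule.sum_mem _ fun k _ => Submodule.smul_mem _ _ (hx k)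
  have hfy : ∀ n m, f n (y m) = if n < N m then f n (w m) else 0 := by
    intro n m
    simp only [y, map_sum, map_smul, smul_eq_mul, hfx, mul_ite, mul_one, mul_zero,
      Finset.sum_ite_eq, Finset.mem_range]
  let c : ℕ → ℕ → 𝕜 := fun n m => f n (w m - y m)
  have hc : ∀ n m, ‖c n m‖ * ‖h m‖ ≤ δ m := by
    intro n m
    simp only [c, map_sub, hfy]
    by_cases hn : n < N m
    · simp only [hn, if_true, sub_self, norm_zero, zero_mul]
      exact (hδ0 m).le
    · simp only [hn, if_false, sub_zero]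
      exact hN m n (not_lt.1 hn)
  have hsum : ∀ n, Summable fun m => ‖c n m‖ * ‖h m‖ := fun n =>
    Summable.of_nonneg_of_le (fun m => by positivity) (hc n) hδs
  have hle : ∀ n, ∑' m, ‖c n m‖ * ‖h m‖ ≤ ε := fun n => by
    rw [← hδ]
    exact (hsum n).tsum_le_tsum (hc n) hδs
  choose f' hf' hff' using fun n => exists_sub_tsum (f n) (c n) h ε (hsum n) (hle n)
  refine ⟨y, f', hy, ?_, ?_, hff', ?_⟩
  · intro m hm
    simp [y, hm]
  · intro n e he
    have h1 := (hf' n e).unique (a₂ := 0) (by
      convert hasSum_zero with m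
      rw [hY m e he, mul_zero])
    exact (sub_eq_zero.1 h1).symm
  · intro n m
    have h1 := (hf' n (w m - y m)).unique (hasSum_single m (fun k hk => by
      rw [map_sub, hoff k m hk, hY k _ (hy m), sub_zero, mul_zero]))
    have h2 : c n m * h m (w m - y m) = f n (w m - y m) := by
      rcases hone m with hm | hm
      · have : y m = 0 := by simp [y, hm.1]
        simp [hm.1, this]
      · rw [map_sub (h m), hm, hY m _ (hy m)]
        simp [c]
    rw [h2] at h1
    simpa using h1

end WeakNull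

end Pool.Agent.H773R2
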