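import Mathlib
import Pool.Agent.H773R2.MinSeq

set_option autoImplicit false

namespace Pool.Agent.H773R2

open Filter Topology Set

universe u v

section

variable {𝕜 : Type u} [RCLike 𝕜] {Q : Type v} [NormedAddCommGroup Q] [NormedSpace 𝕜 Q]

/-- In an infinite dimensional normed space, a finite codimensional subspace contains vectors of
norm at most `3` at distance at least `1/4` from a given finite dimensional subspace. -/
theorem exists_far (hQ : ¬ FiniteDimensional 𝕜 Q) (s : Finset (StrongDual 𝕜 Q))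
    (S : Submodule 𝕜 Q) [FiniteDimensional 𝕜 S] :
    ∃ q : Q, ‖q‖ ≤ 3 ∧ (∀ γ ∈ s, γ q = 0) ∧ ∀ v ∈ S, 1 / 4 ≤ ‖q - v‖ := by
  classical
  -- the intersection of the kernels
  let T : Q →ₗ[𝕜] (s → 𝕜) := LinearMap.pi fun γ => (γ.1 : Q →ₗ[𝕜] 𝕜)
  have hW : ¬ FiniteDimensional 𝕜 (LinearMap.ker T) := by
    intro hfin
    apply hQ
    have h1 : Module.Finite 𝕜 (Q ⧸ LinearMap.ker T) :=
      Module.Finite.equiv (T.quotKerEquivRange).symm
    exact Module.Finite.of_submodule_quotient (LinearMap.ker T)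
  obtain ⟨f, hf1, hf2⟩ := exists_seq_norm_le_one_le_norm_sub' (𝕜 := 𝕜) (E := LinearMap.ker T)
    (c := (2 : 𝕜)) (by simp) (R := 3) (by simp; norm_num) hW
  by_contra hcon
  push Not at hcon
  have h1 : ∀ n, ∃ v ∈ S, ‖(f n : Q) - v‖ < 1 / 4 := by
    intro n
    refine hcon (f n) (hf1 n) fun γ hγ => ?_
    have := (f n).2
    rw [LinearMap.mem_ker] at this
    exact congrFun this ⟨γ, hγ⟩
  choose v hv hv' using h1
  have : ProperSpace S := FiniteDimensional.proper 𝕜 S
  let v' : ℕ → S := fun n => ⟨v n, hv n⟩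
  have hvb : ∀ n, v' n ∈ Metric.closedBall (0 : S) 4 := by
    intro n
    rw [mem_closedBall_zero_iff]
    change ‖v n‖ ≤ 4
    have h2 : v n = (f n : Q) - ((f n : Q) - v n) := by abel
    rw [h2]
    refine (norm_sub_le _ _).trans ?_
    have h3 : ‖(f n : Q)‖ ≤ 3 := hf1 n
    linarith [hv' n]
  obtain ⟨a, -, φ, hφ, hlim⟩ := (isCompact_closedBall (0 : S) 4).tendsto_subseq hvb
  have hcau := hlim.cauchySeq
  obtain ⟨N, hN⟩ := Metric.cauchySeq_iff.1 hcau (1 / 4) (by norm_num)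
  have h4 := hN N le_rfl (N + 1) (Nat.le_succ N)
  rw [dist_eq_norm] at h4
  have h5 : ‖v (φ N) - v (φ (N + 1))‖ < 1 / 4 := h4
  have h6 : 1 ≤ ‖(f (φ N) : Q) - (f (φ (N + 1)) : Q)‖ := hf2 (hφ (Nat.lt_succ_self N)).ne
  have h7 : (f (φ N) : Q) - (f (φ (N + 1)) : Q) = ((f (φ N) : Q) - v (φ N)) -
      ((f (φ (N + 1)) : Q) - v (φ (N + 1))) + (v (φ N) - v (φ (N + 1))) := by abel
  rw [h7] at h6
  have h8 := norm_add_le (((f (φ N) : Q) - v (φ N)) -
      ((f (φ (N + 1)) : Q) - v (φ (N + 1)))) (v (φ N) - v (φ (N + 1)))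
  have h9 := norm_sub_le ((f (φ N) : Q) - v (φ N)) ((f (φ (N + 1)) : Q) - v (φ (N + 1)))
  linarith [hv' (φ N), hv' (φ (N + 1))]

/-- Hahn-Banach with a norm estimate. -/
theorem exists_functional_norm (S : Submodule 𝕜 Q) (q : Q) (δ : ℝ) (hδ : 0 < δ)
    (h : ∀ v ∈ S, δ ≤ ‖q - v‖) :
    ∃ γ : StrongDual 𝕜 Q, (∀ v ∈ S, γ v = 0) ∧ γ q = 1 ∧ ‖γ‖ ≤ δ⁻¹ := by
  have hle : δ ≤ ‖(Submodule.Quotient.mk q : Q ⧸ S)‖ := by
    refine le_of_forall_pos_lt_add fun ε hε => ?_
    obtain ⟨m, hm, hm'⟩ := Submodule.Quotient.norm_mk_lt (Submodule.Quotient.mk q : Q ⧸ S) hε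
    rw [Submodule.Quotient.eq] at hm
    have h1 := h (q - m) (by
      have := S.neg_mem hm
      simpa using this)
    rw [sub_sub_cancel] at h1
    linarith
  have hne : ‖(Submodule.Quotient.mk q : Q ⧸ S)‖ ≠ 0 := by linarith
  obtain ⟨g, hg1, hg⟩ := exists_dual_vector 𝕜 (Submodule.Quotient.mk q : Q ⧸ S) hne
  refine ⟨((‖(Submodule.Quotient.mk q : Q ⧸ S)‖ : 𝕜)⁻¹) • (g.comp S.mkQL), fun s hs => ?_, ?_, ?_⟩
  · have : (Submodule.Quotient.mk s : Q ⧸ S) = 0 := by
      rwa [Submodule.Quotient.mk_eq_zero]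
    simp [this]
  · have h2 : ((‖(Submodule.Quotient.mk q : Q ⧸ S)‖ : 𝕜)) ≠ 0 := by
      exact_mod_cast hne
    simp only [_root_.smul_apply, ContinuousLinearMap.comp_apply,
      Submodule.mkQL_apply, smul_eq_mul]
    rw [Submodule.mkQ_apply, hg, inv_mul_cancel₀ h2]
  · rw [norm_smul, norm_inv, RCLike.norm_ofReal, abs_of_nonneg (norm_nonneg _)]
    have h3 : ‖g.comp S.mkQL‖ ≤ 1 := by
      refine ContinuousLinearMap.opNorm_le_bound _ zero_le_one fun x => ?_
      rw [ContinuousLinearMap.comp_apply, one_mul]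
      refine (g.le_opNorm _).trans ?_
      rw [hg1, one_mul]
      exact Submodule.Quotient.norm_mk_le S x
    calc ‖(Submodule.Quotient.mk q : Q ⧸ S)‖⁻¹ * ‖g.comp S.mkQL‖ ≤ δ⁻¹ * 1 := by
          gcongr
      _ = δ⁻¹ := mul_one _

/-- Every infinite dimensional normed space contains an infinite bounded biorthogonal system. -/
theorem exists_bounded_biorth (hQ : ¬ FiniteDimensional 𝕜 Q) :
    ∃ (q : ℕ → Q) (γ : ℕ → StrongDual 𝕜 Q), (∀ k, ‖q k‖ ≤ 3) ∧ (∀ k, ‖γ k‖ ≤ 4) ∧
      (∀ k, γ k (q k) = 1) ∧ ∀ i j, i ≠ j → γ i (q j) = 0 := by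
  classical
  obtain ⟨p, hp1, hp2⟩ := exists_seq_of_forall_finset_exists
    (fun p : Q × StrongDual 𝕜 Q => ‖p.1‖ ≤ 3 ∧ ‖p.2‖ ≤ 4 ∧ p.2 p.1 = 1)
    (fun p p' => p.2 p'.1 = 0 ∧ p'.2 p.1 = 0) (by
      intro s _
      have : FiniteDimensional 𝕜 (Submodule.span 𝕜 ((s.image Prod.fst : Finset Q) : Set Q)) :=
        FiniteDimensional.span_finset 𝕜 _
      obtain ⟨q, hq1, hq2, hq3⟩ := exists_far hQ (s.image Prod.snd)
        (Submodule.span 𝕜 ((s.image Prod.fst : Finset Q) : Set Q))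
      obtain ⟨γ, hγ1, hγ2, hγ3⟩ := exists_functional_norm _ q (1 / 4) (by norm_num) hq3
      refine ⟨(q, γ), ⟨hq1, by simpa using hγ3, hγ2⟩, fun p hp => ⟨?_, ?_⟩⟩
      · exact hq2 _ (Finset.mem_image_of_mem _ hp)
      · exact hγ1 _ (Submodule.subset_span (by
          exact_mod_cast Finset.mem_image_of_mem Prod.fst hp)))
  refine ⟨fun k => (p k).1, fun k => (p k).2, fun k => (hp1 k).1, fun k => (hp1 k).2.1,
    fun k => (hp1 k).2.2, fun i j hij => ?_⟩
  rcases lt_or_gt_of_ne hij with h | h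
  · exact (hp2 i j h).1
  · exact (hp2 j i h).2

end

section Hump

variable {𝕜 : Type u} [RCLike 𝕜] {E : Type v} [NormedAddCommGroup E] [NormedSpace 𝕜 E]

/-- Gliding hump: given a bounded weak*-null sequence of functionals and a closed subspace `Y` of
infinite codimension, there is an infinite bounded biorthogonal system modulo `Y` which is
annihilated by functionals agreeing with the given ones on `Y` and still bounded. -/
theorem hump (Y : Submodule 𝕜 E) (hYc : IsClosed (Y : Set E)) (hQ : ¬ FiniteDimensional 𝕜 (E ⧸ Y))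
    (f : ℕ → StrongDual 𝕜 E) (C : ℝ) (hC : ∀ n, ‖f n‖ ≤ C)
    (hf0 : ∀ e, Tendsto (fun n => f n e) atTop (𝓝 0)) :
    ∃ (d : ℕ → E) (g f' : ℕ → StrongDual 𝕜 E) (C' : ℝ), (∀ k, ‖d k‖ ≤ C') ∧ (∀ k, ‖g k‖ ≤ C') ∧
      (∀ n, ‖f' n‖ ≤ C') ∧ (∀ k, ∀ y ∈ Y, g k y = 0) ∧ (∀ k, g k (d k) = 1) ∧
      (∀ i j, i ≠ j → g i (d j) = 0) ∧ (∀ n, ∀ y ∈ Y, f' n y = f n y) ∧
      (∀ n k, f' n (d k) = 0) := by
  classical
  have hC0 : 0 ≤ C := (norm_nonneg _).trans (hC 0)
  have := hYc
  obtain ⟨q, γ, hq, hγ, hqq, hqq'⟩ := exists_bounded_biorth (𝕜 := 𝕜) (Q := E ⧸ Y) hQ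
  have hlift : ∀ k, ∃ v : E, (Submodule.Quotient.mk v : E ⧸ Y) = q k ∧ ‖v‖ ≤ 4 := by
    intro k
    obtain ⟨m, hm, hm'⟩ := Submodule.Quotient.norm_mk_lt (q k) (zero_lt_one)
    exact ⟨m, hm, by linarith [hq k]⟩
  choose v hv hv4 using hlift
  let γ' : ℕ → StrongDual 𝕜 E := fun k => (γ k).comp Y.mkQL
  have hγ'n : ∀ k, ‖γ' k‖ ≤ 4 := by
    intro k
    refine ContinuousLinearMap.opNorm_le_bound _ (by norm_num) fun x => ?_
    change ‖γ k (Submodule.Quotient.mk x)‖ ≤ _
    refine ((γ k).le_opNorm _).trans ?_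
    gcongr
    · exact hγ k
    · exact Submodule.Quotient.norm_mk_le Y x
  have hγ'Y : ∀ k, ∀ y ∈ Y, γ' k y = 0 := by
    intro k y hy
    change γ k (Submodule.Quotient.mk y) = 0
    rw [(Submodule.Quotient.mk_eq_zero Y).2 hy, map_zero]
  have hγ'v : ∀ i j, γ' i (v j) = if i = j then 1 else 0 := by
    intro i j
    change γ i (Submodule.Quotient.mk (v j)) = _
    rw [hv]
    split_ifs with hij
    · rw [hij, hqq]
    · exact hqq' i j hij
  -- a subsequence along which all the functionals converge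
  have hK : IsCompact (Set.pi Set.univ fun _ : ℕ => Metric.closedBall (0 : 𝕜) (C * 4)) :=
    isCompact_univ_pi fun _ => isCompact_closedBall _ _
  obtain ⟨a, -, κ, hκ, hκlim⟩ := hK.tendsto_subseq (x := fun k n => f n (v k)) (by
    intro k n _
    rw [mem_closedBall_zero_iff]
    refine ((f n).le_opNorm _).trans ?_
    exact mul_le_mul (hC n) (hv4 k) (norm_nonneg _) hC0)
  rw [tendsto_pi_nhds] at hκlim
  let d0 : ℕ → E := fun k => v (κ (2 * k)) - v (κ (2 * k + 1))
  have hd0 : ∀ k, ‖d0 k‖ ≤ 8 := by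
    intro k
    refine (norm_sub_le _ _).trans ?_
    linarith [hv4 (κ (2 * k)), hv4 (κ (2 * k + 1))]
  have hd0lim : ∀ n, Tendsto (fun k => f n (d0 k)) atTop (𝓝 0) := by
    intro n
    have h1 : Tendsto (fun k => f n (v (κ (2 * k)))) atTop (𝓝 (a n)) :=
      (hκlim n).comp (tendsto_id.const_mul_atTop' (by norm_num))
    have h2 : Tendsto (fun k => f n (v (κ (2 * k + 1)))) atTop (𝓝 (a n)) :=
      (hκlim n).comp ((tendsto_add_atTop_nat 1).comp (tendsto_id.const_mul_atTop' (by norm_num)))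
    simpa [d0] using h1.sub h2
  let g0 : ℕ → StrongDual 𝕜 E := fun k => γ' (κ (2 * k))
  have hg0 : ∀ i j, g0 i (d0 j) = if i = j then 1 else 0 := by
    intro i j
    simp only [g0, d0, map_sub, hγ'v]
    have h1 : κ (2 * i) ≠ κ (2 * j + 1) := fun h => by
      have := hκ.injective h
      omega
    rw [if_neg h1, sub_zero]
    by_cases hij : i = j
    · simp [hij]
    · have h2 : κ (2 * i) ≠ κ (2 * j) := fun h => hij (by
        have := hκ.injective h
        omega)
      rw [if_neg h2, if_neg hij]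
  -- first extraction
  obtain ⟨σ, hσ, hσ'⟩ := extraction_forall_of_eventually
    (P := fun k m => ∀ n ≤ k, ‖f n (d0 m)‖ ≤ (1 / 2 : ℝ) ^ k) (by
      intro k
      have h1 : ∀ᶠ m in atTop, ∀ n ∈ Finset.range (k + 1), ‖f n (d0 m)‖ ≤ (1 / 2 : ℝ) ^ k := by
        rw [Filter.eventually_all_finset]
        intro n _
        have := (hd0lim n).norm
        rw [norm_zero] at this
        exact this.eventually_le_const (by positivity)
      filter_upwards [h1] with m hm n hn
      exact hm n (Finset.mem_range.2 (Nat.lt_succ_of_le hn)))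
  let d1 : ℕ → E := fun k => d0 (σ k)
  have hN : ∀ k, ∃ N, ∀ n ≥ N, ‖f n (d1 k)‖ ≤ (1 / 2 : ℝ) ^ k := by
    intro k
    have := (hf0 (d1 k)).norm
    rw [norm_zero] at this
    exact eventually_atTop.1 (this.eventually_le_const (by positivity))
  choose N hN using hN
  obtain ⟨τ, -, hτ⟩ := exists_seq_of_forall_finset_exists (fun _ : ℕ => True)
    (fun m n => m < n ∧ N m ≤ n) (by
      intro s _
      refine ⟨s.sup (fun m => max (m + 1) (N m)), trivial, fun m hm => ?_⟩
      have := Finset.le_sup (f := fun m => max (m + 1) (N m)) hm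
      simp only [max_le_iff] at this
      exact ⟨this.1, this.2⟩)
  have hτm : StrictMono τ := fun m n hmn => (hτ m n hmn).1
  let d : ℕ → E := fun j => d1 (τ j)
  let g : ℕ → StrongDual 𝕜 E := fun j => g0 (σ (τ j))
  have hgn : ∀ j, ‖g j‖ ≤ 4 := fun j => hγ'n _
  have hdn : ∀ j, ‖d j‖ ≤ 8 := fun j => hd0 _
  have hbd : ∀ n j, ‖f n (d j)‖ ≤ (1 / 2 : ℝ) ^ j +
      (if τ j < n ∧ n ≤ τ (j + 1) then 8 * C else 0) := by
    intro n j
    have hpow : (1 / 2 : ℝ) ^ τ j ≤ (1 / 2 : ℝ) ^ j :=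
      pow_le_pow_of_le_one (by norm_num) (by norm_num) (hτm.id_le j)
    by_cases h1 : τ j < n
    · by_cases h2 : n ≤ τ (j + 1)
      · rw [if_pos ⟨h1, h2⟩]
        have h3 : ‖f n (d j)‖ ≤ C * 8 :=
          ((f n).le_opNorm _).trans (mul_le_mul (hC n) (hdn j) (norm_nonneg _) hC0)
        have h4 : (0 : ℝ) ≤ (1 / 2 : ℝ) ^ j := by positivity
        linarith
      · rw [if_neg (fun h => h2 h.2), add_zero]
        refine (hN (τ j) n ?_).trans hpow
        have := (hτ j (j + 1) (Nat.lt_succ_self j)).2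
        omega
    · rw [if_neg (fun h => h1 h.1), add_zero]
      exact (hσ' (τ j) n (not_lt.1 h1)).trans hpow
  have hsum2 : ∀ n, HasSum (fun j => (if τ j < n ∧ n ≤ τ (j + 1) then 8 * C else 0))
      (if ∃ j, τ j < n ∧ n ≤ τ (j + 1) then 8 * C else 0) := by
    intro n
    by_cases hex : ∃ j, τ j < n ∧ n ≤ τ (j + 1)
    · obtain ⟨j0, hj0⟩ := hex
      rw [if_pos ⟨j0, hj0⟩]
      have := hasSum_single (f := fun j => (if τ j < n ∧ n ≤ τ (j + 1) then 8 * C else 0)) j0
        (by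
          intro j hj
          refine if_neg fun h => hj ?_
          rcases lt_trichotomy j j0 with h' | h' | h'
          · have := hτm.monotone (Nat.succ_le_of_lt h')
            have h3 := h.2
            have h4 := hj0.1
            simp only [Nat.succ_eq_add_one] at this
            omega
          · exact h'
          · have := hτm.monotone (Nat.succ_le_of_lt h')
            have h3 := h.1
            have h4 := hj0.2
            simp only [Nat.succ_eq_add_one] at this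
            omega)
      simpa [hj0] using this
    · rw [if_neg hex]
      convert hasSum_zero with j
      exact if_neg fun h => hex ⟨j, h⟩
  have hmaj : ∀ n, Summable fun j => ((1 / 2 : ℝ) ^ j +
      (if τ j < n ∧ n ≤ τ (j + 1) then 8 * C else 0)) * 4 := fun n =>
    (summable_geometric_two.add (hsum2 n).summable).mul_right 4
  have hterm : ∀ n j, ‖f n (d j)‖ * ‖g j‖ ≤ ((1 / 2 : ℝ) ^ j +
      (if τ j < n ∧ n ≤ τ (j + 1) then 8 * C else 0)) * 4 := fun n j =>
    mul_le_mul (hbd n j) (hgn j) (norm_nonneg _) ((norm_nonneg _).trans (hbd n j))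
  have hsum : ∀ n, Summable fun j => ‖f n (d j)‖ * ‖g j‖ := fun n =>
    Summable.of_nonneg_of_le (fun j => by positivity) (hterm n) (hmaj n)
  have hle : ∀ n, ∑' j, ‖f n (d j)‖ * ‖g j‖ ≤ (2 + 8 * C) * 4 := by
    intro n
    refine ((hsum n).tsum_le_tsum (hterm n) (hmaj n)).trans ?_
    rw [tsum_mul_right, summable_geometric_two.tsum_add (hsum2 n).summable, tsum_geometric_two,
      (hsum2 n).tsum_eq]
    gcongr
    split_ifs
    · exact le_rfl
    · positivity
  choose f' hf' hff' using fun n =>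
    exists_sub_tsum (f n) (fun j => f n (d j)) g _ (hsum n) (hle n)
  refine ⟨d, g, f', C + (2 + 8 * C) * 4 + 8, fun k => ?_, fun k => ?_, fun n => ?_,
    fun k y hy => hγ'Y _ y hy, fun k => ?_, fun i j hij => ?_, fun n y hy => ?_, fun n k => ?_⟩
  · have := hdn k
    nlinarith
  · have := hgn k
    nlinarith
  · have h1 : f' n = f n - (f n - f' n) := by abel
    rw [h1]
    refine (norm_sub_le _ _).trans ?_
    linarith [hC n, hff' n]
  · simp [g, d, d1, hg0]
  · have h1 : σ (τ i) ≠ σ (τ j) := fun h => hij (hτm.injective (hσ.injective h))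
    simp [g, d, d1, hg0, h1]
  · have h1 := (hf' n y).unique (a₂ := 0) (by
      convert hasSum_zero with m
      change f n (d m) * g m y = 0
      rw [show g m y = 0 from hγ'Y _ y hy, mul_zero])
    exact (sub_eq_zero.1 h1).symm
  · have h1 := (hf' n (d k)).unique (hasSum_single k (fun m hm => by
      change f n (d m) * g m (d k) = 0
      have h2 : σ (τ m) ≠ σ (τ k) := fun h => hm (hτm.injective (hσ.injective h))
      have h3 : g m (d k) = 0 := by simp [g, d, d1, hg0, h2]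
      rw [h3, mul_zero]))
    have h4 : g k (d k) = 1 := by simp [g, d, d1, hg0]
    simp only [h4, mul_one] at h1
    simpa using h1

end Hump

end Pool.Agent.H773R2
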