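import Mathlib

set_option autoImplicit false

namespace Pool.Agent.H773R2

open Filter Topology Set

universe u v

/-- Orthogonal matrices of Haar type: a prescribed column is small and the remaining parts of
the rows are bounded in `ℓ¹`. -/
theorem exists_haar (l : ℕ) : ∃ (ι : Type) (_ : Fintype ι) (_ : DecidableEq ι) (o : ι)
    (A : Matrix ι ι ℝ), A * A.transpose = 1 ∧ (∀ i, |A i o| ≤ (1 / √2) ^ l) ∧
      (∀ i, ∑ j ∈ Finset.univ.erase o, |A i j| ≤ 3) ∧ (0 < l → ∃ j, j ≠ o) := by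
  have hs : (1 : ℝ) / √2 ≤ 3 / 4 := by
    rw [div_le_iff₀ (by positivity)]
    have : (4 / 3 : ℝ) ≤ √2 := by
      rw [Real.le_sqrt' (by norm_num)]
      norm_num
    linarith
  have hs0 : (0 : ℝ) ≤ 1 / √2 := by positivity
  have hsq : (1 : ℝ) / √2 * (1 / √2) = 1 / 2 := by
    rw [div_mul_div_comm, Real.mul_self_sqrt (by norm_num)]
    norm_num
  induction l with
  | zero =>
    refine ⟨Unit, inferInstance, inferInstance, (), 1, by simp, by simp, by simp, by simp⟩
  | succ l ih =>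
    obtain ⟨ι, i1, i2, o, A, h1, h2, h3, -⟩ := ih
    refine ⟨ι ⊕ ι, inferInstance, inferInstance, Sum.inl o,
      ((1 : ℝ) / √2) • Matrix.fromBlocks A 1 A (-1), ?_, ?_, ?_, fun _ => ⟨Sum.inr o, by simp⟩⟩
    · rw [Matrix.transpose_smul, Matrix.fromBlocks_transpose, Matrix.smul_mul, Matrix.mul_smul,
        Matrix.fromBlocks_multiply, smul_smul, hsq, h1]
      simp only [Matrix.transpose_one, mul_one, Matrix.transpose_neg, mul_neg, neg_neg,
        add_neg_cancel]
      rw [Matrix.fromBlocks_smul]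
      have : ((1 : ℝ) / 2) • ((1 : Matrix ι ι ℝ) + 1) = 1 := by
        rw [← two_smul ℝ (1 : Matrix ι ι ℝ), smul_smul]
        norm_num
      rw [this, smul_zero (1 / 2 : ℝ), Matrix.fromBlocks_one]
    · rintro (i | i)
      · simp only [Matrix.smul_apply, Matrix.fromBlocks_apply₁₁, smul_eq_mul, abs_mul, pow_succ,
          abs_of_nonneg hs0]
        rw [mul_comm]
        exact mul_le_mul_of_nonneg_right (h2 i) hs0
      · simp only [Matrix.smul_apply, Matrix.fromBlocks_apply₂₁, smul_eq_mul, abs_mul, pow_succ,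
          abs_of_nonneg hs0]
        rw [mul_comm]
        exact mul_le_mul_of_nonneg_right (h2 i) hs0
    · have key : ∀ (B : Matrix ι ι ℝ), (∀ i, ∑ j, |B i j| ≤ 1) → ∀ i,
          ((1 : ℝ) / √2) * (∑ j ∈ Finset.univ.erase o, |A i j| + ∑ j, |B i j|) ≤ 3 := by
        intro B hB i
        have h4 : ∑ j ∈ Finset.univ.erase o, |A i j| + ∑ j, |B i j| ≤ 4 := by
          linarith [h3 i, hB i]
        have h5 : 0 ≤ ∑ j ∈ Finset.univ.erase o, |A i j| + ∑ j, |B i j| := by positivity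
        calc ((1 : ℝ) / √2) * (∑ j ∈ Finset.univ.erase o, |A i j| + ∑ j, |B i j|)
            ≤ (3 / 4) * 4 := by gcongr
          _ = 3 := by norm_num
      have hsplit : ∀ F : ι ⊕ ι → ℝ, ∑ j ∈ Finset.univ.erase (Sum.inl o), F j =
          ∑ j ∈ Finset.univ.erase o, F (Sum.inl j) + ∑ j, F (Sum.inr j) := by
        intro F
        have h6 := Finset.add_sum_erase Finset.univ F (Finset.mem_univ (Sum.inl o : ι ⊕ ι))
        have h7 := Finset.add_sum_erase Finset.univ (fun j => F (Sum.inl j)) (Finset.mem_univ o)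
        rw [Fintype.sum_sum_type] at h6
        linarith
      rintro (i | i)
      · rw [hsplit]
        simp only [Matrix.smul_apply, Matrix.fromBlocks_apply₁₁, Matrix.fromBlocks_apply₁₂,
          smul_eq_mul, abs_mul, abs_of_nonneg hs0]
        rw [← Finset.mul_sum, ← Finset.mul_sum, ← mul_add]
        refine key 1 (fun i => ?_) i
        rw [Finset.sum_eq_single i]
        · simp
        · intro b _ hb
          simp [Matrix.one_apply_ne hb.symm]
        · simp
      · rw [hsplit]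
        simp only [Matrix.smul_apply, Matrix.fromBlocks_apply₂₁, Matrix.fromBlocks_apply₂₂,
          smul_eq_mul, abs_mul, abs_of_nonneg hs0]
        rw [← Finset.mul_sum, ← Finset.mul_sum, ← mul_add]
        refine key (-1) (fun i => ?_) i
        rw [Finset.sum_eq_single i]
        · simp
        · intro b _ hb
          simp [Matrix.one_apply_ne hb.symm]
        · simp

section Mix

variable {𝕜 : Type u} [RCLike 𝕜] {E : Type v} [NormedAddCommGroup E] [NormedSpace 𝕜 E]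

theorem mix_norm {ι : Type} [Fintype ι] [DecidableEq ι] {V : Type v} [NormedAddCommGroup V]
    [NormedSpace 𝕜 V] (o : ι) (a : ι → ℝ) (s : ι → V) (δ R C : ℝ) (hδ : 0 ≤ δ) (hC0 : 0 ≤ C)
    (ha : |a o| ≤ δ) (ha' : ∑ j ∈ Finset.univ.erase o, |a j| ≤ 3) (hR : δ * R ≤ 1)
    (hs1 : ‖s o‖ ≤ R) (hs2 : ∀ j, j ≠ o → ‖s j‖ ≤ C) :
    ‖∑ j, ((a j : ℝ) : 𝕜) • s j‖ ≤ 3 * C + 1 := by
  refine (norm_sum_le _ _).trans ?_
  rw [← Finset.add_sum_erase _ _ (Finset.mem_univ o)]
  have h1 : ‖((a o : ℝ) : 𝕜) • s o‖ ≤ 1 := by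
    rw [norm_smul, RCLike.norm_ofReal]
    exact (mul_le_mul ha hs1 (norm_nonneg _) hδ).trans hR
  have h2 : ∑ j ∈ Finset.univ.erase o, ‖((a j : ℝ) : 𝕜) • s j‖ ≤ 3 * C := by
    calc ∑ j ∈ Finset.univ.erase o, ‖((a j : ℝ) : 𝕜) • s j‖
        ≤ ∑ j ∈ Finset.univ.erase o, |a j| * C := by
          refine Finset.sum_le_sum fun j hj => ?_
          rw [norm_smul, RCLike.norm_ofReal]
          exact mul_le_mul_of_nonneg_left (hs2 j (Finset.ne_of_mem_erase hj)) (abs_nonneg _)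
      _ = (∑ j ∈ Finset.univ.erase o, |a j|) * C := by rw [Finset.sum_mul]
      _ ≤ 3 * C := mul_le_mul_of_nonneg_right ha' hC0
  linarith

/-- Ovsepian-Pelczynski mixing: a biorthogonal system with infinitely many uniformly bounded terms
can be replaced by a uniformly bounded one with the same span. -/
theorem mix (B : Type) [Countable B] [Infinite B] (u : B → E) (h : B → StrongDual 𝕜 E)
    (d : ℕ → E) (g : ℕ → StrongDual 𝕜 E) (C : ℝ) (hd : ∀ j, ‖d j‖ ≤ C) (hg : ∀ j, ‖g j‖ ≤ C)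
    (huu : ∀ b, h b (u b) = 1) (huu' : ∀ b b', b ≠ b' → h b (u b') = 0)
    (hdd : ∀ j, g j (d j) = 1) (hdd' : ∀ j j', j ≠ j' → g j (d j') = 0)
    (hud : ∀ b j, h b (d j) = 0) (hdu : ∀ j b, g j (u b) = 0) :
    ∃ (I : Type) (_ : Countable I) (_ : Infinite I) (e : I → E) (e' : I → StrongDual 𝕜 E),
      (∀ i, e' i (e i) = 1) ∧ (∀ i i', i ≠ i' → e' i (e i') = 0) ∧
      (∀ i, ‖e i‖ ≤ 3 * C + 1) ∧ (∀ i, ‖e' i‖ ≤ 3 * C + 1) ∧
      (∀ f : StrongDual 𝕜 E, (∀ b, f (u b) = 0) → (∀ j, f (d j) = 0) → ∀ i, f (e i) = 0) ∧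
      (∀ x : E, (∀ b, h b x = 0) → (∀ j, g j x = 0) → ∀ i, e' i x = 0) ∧
      (∀ b, u b ∈ Submodule.span 𝕜 (Set.range e)) ∧
      (∀ j, d j ∈ Submodule.span 𝕜 (Set.range e)) := by
  classical
  have hC0 : 0 ≤ C := (norm_nonneg _).trans (hd 0)
  have hl : ∀ b : B, ∃ l : ℕ, 0 < l ∧ ((1 : ℝ) / √2) ^ l * (‖u b‖ + ‖h b‖) ≤ 1 := by
    intro b
    have h1 : Tendsto (fun l : ℕ => ((1 : ℝ) / √2) ^ l * (‖u b‖ + ‖h b‖)) atTop (𝓝 0) := by
      have h2 : Tendsto (fun l : ℕ => ((1 : ℝ) / √2) ^ l) atTop (𝓝 0) := by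
        refine tendsto_pow_atTop_nhds_zero_of_lt_one (by positivity) ?_
        rw [div_lt_one (by positivity), Real.lt_sqrt (by norm_num)]
        norm_num
      simpa using h2.mul_const (‖u b‖ + ‖h b‖)
    have h3 := (h1.eventually_le_const (zero_lt_one)).and (eventually_gt_atTop 0)
    obtain ⟨l, hl⟩ := h3.exists
    exact ⟨l, hl.2, hl.1⟩
  choose l hl0 hl using hl
  choose ι i1 i2 o A hA1 hA2 hA3 hA4 using fun b => exists_haar (l b)
  let J : Type := Σ b, {j : ι b // j ≠ o b}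
  have hJc : Countable J := by
    have : ∀ b, Countable {j : ι b // j ≠ o b} := fun b => inferInstance
    infer_instance
  have hJi : Infinite J := by
    choose j hj using fun b => hA4 b (hl0 b)
    exact Infinite.of_injective (fun b => (⟨b, ⟨j b, hj b⟩⟩ : J)) (fun b b' hbb => by
      exact congrArg Sigma.fst hbb)
  obtain ⟨eqv⟩ : Nonempty (J ≃ ℕ) := nonempty_equiv_of_countable
  let t : (b : B) → ι b → E := fun b j => if hj : j = o b then u b else d (eqv ⟨b, ⟨j, hj⟩⟩)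
  let t' : (b : B) → ι b → StrongDual 𝕜 E := fun b j =>
    if hj : j = o b then h b else g (eqv ⟨b, ⟨j, hj⟩⟩)
  have hto : ∀ b, t b (o b) = u b := fun b => by simp [t]
  have hto' : ∀ b, t' b (o b) = h b := fun b => by simp [t']
  have htn : ∀ b j (hj : j ≠ o b), t b j = d (eqv ⟨b, ⟨j, hj⟩⟩) := fun b j hj => by simp [t, hj]
  have htn' : ∀ b j (hj : j ≠ o b), t' b j = g (eqv ⟨b, ⟨j, hj⟩⟩) := fun b j hj => by
    simp [t', hj]
  have htt : ∀ b j, t' b j (t b j) = 1 := by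
    intro b j
    by_cases hj : j = o b
    · rw [hj, hto, hto', huu]
    · rw [htn b j hj, htn' b j hj, hdd]
  have htt' : ∀ b j b' j', (⟨b, j⟩ : Σ b, ι b) ≠ ⟨b', j'⟩ → t' b j (t b' j') = 0 := by
    intro b j b' j' hne
    by_cases hj : j = o b
    · rw [hj, hto']
      by_cases hj' : j' = o b'
      · rw [hj', hto]
        refine huu' b b' fun hbb => hne ?_
        subst hbb
        rw [hj, hj']
      · rw [htn b' j' hj', hud]
    · rw [htn' b j hj]
      by_cases hj' : j' = o b'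
      · rw [hj', hto, hdu]
      · rw [htn b' j' hj']
        refine hdd' _ _ fun hee => hne ?_
        have h5 := eqv.injective hee
        have h6 : b = b' := congrArg Sigma.fst h5
        subst h6
        have h7 : j = j' := by
          have := eq_of_heq (Sigma.mk.inj_iff.1 h5).2
          exact congrArg Subtype.val this
        rw [h7]
  -- the new system
  let e : (Σ b, ι b) → E := fun p => ∑ j, ((A p.1 p.2 j : ℝ) : 𝕜) • t p.1 j
  let e' : (Σ b, ι b) → StrongDual 𝕜 E := fun p => ∑ j, ((A p.1 p.2 j : ℝ) : 𝕜) • t' p.1 j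
  have htfun : ∀ f : StrongDual 𝕜 E, (∀ b, f (u b) = 0) → (∀ j, f (d j) = 0) →
      ∀ b j, f (t b j) = 0 := by
    intro f h1 h2 b j
    by_cases hj : j = o b
    · rw [hj, hto, h1]
    · rw [htn b j hj, h2]
  have htvec : ∀ x : E, (∀ b, h b x = 0) → (∀ j, g j x = 0) → ∀ b j, t' b j x = 0 := by
    intro x h1 h2 b j
    by_cases hj : j = o b
    · rw [hj, hto', h1]
    · rw [htn' b j hj, h2]
  have hE't : ∀ b (i j : ι b), e' ⟨b, i⟩ (t b j) = ((A b i j : ℝ) : 𝕜) := by
    intro b i j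
    change (∑ k, ((A b i k : ℝ) : 𝕜) • t' b k) (t b j) = _
    rw [_root_.sum_apply, Finset.sum_eq_single j]
    · rw [_root_.smul_apply, htt, smul_eq_mul, mul_one]
    · intro k _ hk
      rw [_root_.smul_apply, htt' b k b j (fun hh => hk (eq_of_heq (Sigma.mk.inj_iff.1 hh).2)),
        smul_zero]
    · intro hh
      exact absurd (Finset.mem_univ _) hh
  have hcomp : ∀ b (i i' : ι b), e' ⟨b, i⟩ (e ⟨b, i'⟩) = if i = i' then 1 else 0 := by
    intro b i i'
    have h1 : e' ⟨b, i⟩ (e ⟨b, i'⟩) = ∑ j, ((A b i j : ℝ) : 𝕜) * ((A b i' j : ℝ) : 𝕜) := by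
      change e' ⟨b, i⟩ (∑ j, ((A b i' j : ℝ) : 𝕜) • t b j) = _
      rw [map_sum]
      refine Finset.sum_congr rfl fun j _ => ?_
      rw [map_smul, hE't, smul_eq_mul, mul_comm]
    rw [h1]
    have h2 := congrFun (congrFun (hA1 b) i) i'
    rw [Matrix.mul_apply, Matrix.one_apply] at h2
    simp only [Matrix.transpose_apply] at h2
    have h3 : (∑ j, ((A b i j : ℝ) : 𝕜) * ((A b i' j : ℝ) : 𝕜)) =
        ((∑ j, A b i j * A b i' j : ℝ) : 𝕜) := by push_cast; rfl
    rw [h3, h2]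
    split_ifs <;> simp
  have hspan : ∀ b (j : ι b), t b j ∈ Submodule.span 𝕜 (Set.range e) := by
    intro b j
    have h1 : t b j = ∑ i, ((A b i j : ℝ) : 𝕜) • e ⟨b, i⟩ := by
      have h2 : (A b).transpose * A b = 1 := mul_eq_one_comm.1 (hA1 b)
      have h3 : ∀ k, (∑ i, ((A b i j : ℝ) : 𝕜) * ((A b i k : ℝ) : 𝕜)) =
          if j = k then 1 else 0 := by
        intro k
        have h4 := congrFun (congrFun h2 j) k
        rw [Matrix.mul_apply, Matrix.one_apply] at h4
        simp only [Matrix.transpose_apply] at h4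
        have h5 : (∑ i, ((A b i j : ℝ) : 𝕜) * ((A b i k : ℝ) : 𝕜)) =
            ((∑ i, A b i j * A b i k : ℝ) : 𝕜) := by push_cast; rfl
        rw [h5, h4]
        split_ifs <;> simp
      calc t b j = ∑ k, (if j = k then (1 : 𝕜) else 0) • t b k := by simp
        _ = ∑ k, (∑ i, ((A b i j : ℝ) : 𝕜) * ((A b i k : ℝ) : 𝕜)) • t b k := by
            simp_rw [h3]
        _ = ∑ k, ∑ i, (((A b i j : ℝ) : 𝕜) * ((A b i k : ℝ) : 𝕜)) • t b k := by
            simp_rw [Finset.sum_smul]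
        _ = ∑ i, ∑ k, (((A b i j : ℝ) : 𝕜) * ((A b i k : ℝ) : 𝕜)) • t b k :=
            Finset.sum_comm
        _ = ∑ i, ((A b i j : ℝ) : 𝕜) • e ⟨b, i⟩ := by
            refine Finset.sum_congr rfl fun i _ => ?_
            change _ = ((A b i j : ℝ) : 𝕜) • ∑ k, ((A b i k : ℝ) : 𝕜) • t b k
            rw [Finset.smul_sum]
            refine Finset.sum_congr rfl fun k _ => ?_
            rw [smul_smul]
    rw [h1]
    exact Submodule.sum_mem _ fun i _ => Submodule.smul_mem _ _ (Submodule.subset_span ⟨_, rfl⟩)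
  have hIi : Infinite (Σ b, ι b) :=
    Infinite.of_injective (fun b => (⟨b, o b⟩ : Σ b, ι b)) (fun b b' hbb => by
      exact congrArg Sigma.fst hbb)
  refine ⟨Σ b, ι b, inferInstance, hIi, e, e', ?_, ?_, ?_, ?_, ?_, ?_, ?_, ?_⟩
  · rintro ⟨b, i⟩
    rw [hcomp, if_pos rfl]
  · rintro ⟨b, i⟩ ⟨b', i'⟩ hne
    by_cases hbb : b = b'
    · subst hbb
      rw [hcomp, if_neg (fun hii => hne (by rw [hii]))]
    · change e' ⟨b, i⟩ (∑ j, ((A b' i' j : ℝ) : 𝕜) • t b' j) = 0
      rw [map_sum]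
      refine Finset.sum_eq_zero fun j _ => ?_
      rw [map_smul]
      change _ • (∑ k, ((A b i k : ℝ) : 𝕜) • t' b k) (t b' j) = 0
      rw [_root_.sum_apply, Finset.sum_eq_zero, smul_zero]
      intro k _
      rw [_root_.smul_apply, htt' b k b' j (fun hh => hbb (congrArg Sigma.fst hh)), smul_zero]
  · rintro ⟨b, i⟩
    refine mix_norm (o b) (A b i) (t b) (((1 : ℝ) / √2) ^ l b) (‖u b‖ + ‖h b‖) C (by positivity)
      hC0 (hA2 b i) (hA3 b i) (hl b) ?_ ?_
    · rw [hto]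
      linarith [norm_nonneg (h b)]
    · intro j hj
      rw [htn b j hj]
      exact hd _
  · rintro ⟨b, i⟩
    refine mix_norm (o b) (A b i) (t' b) (((1 : ℝ) / √2) ^ l b) (‖u b‖ + ‖h b‖) C (by positivity)
      hC0 (hA2 b i) (hA3 b i) (hl b) ?_ ?_
    · rw [hto']
      linarith [norm_nonneg (u b)]
    · intro j hj
      rw [htn' b j hj]
      exact hg _
  · rintro f h1 h2 ⟨b, i⟩
    change f (∑ j, ((A b i j : ℝ) : 𝕜) • t b j) = 0
    rw [map_sum]
    refine Finset.sum_eq_zero fun j _ => ?_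
    rw [map_smul, htfun f h1 h2, smul_zero]
  · rintro x h1 h2 ⟨b, i⟩
    change (∑ k, ((A b i k : ℝ) : 𝕜) • t' b k) x = 0
    rw [_root_.sum_apply, Finset.sum_eq_zero]
    intro k _
    rw [_root_.smul_apply, htvec x h1 h2, smul_zero]
  · intro b
    rw [← hto]
    exact hspan b _
  · intro j
    obtain ⟨⟨b, k, hk⟩, hj⟩ := eqv.surjective j
    rw [← hj, ← htn b k hk]
    exact hspan b _

end Mix

end Pool.Agent.H773R2
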