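import Mathlib
import Pool.Agent.H773R2.MinSeq
import Pool.Agent.H773R2.Mix
import Pool.Agent.H773R2.Hump

set_option autoImplicit false

namespace Pool.Agent.H773R2

open Filter Topology Set

universe u v

section

variable {𝕜 : Type u} [RCLike 𝕜] {E : Type v} [NormedAddCommGroup E] [NormedSpace 𝕜 E]

/-- A biorthogonal sequence of bounded functionals has a bounded weak*-null modification with the
same restrictions to the closed span. -/
theorem null_modification [TopologicalSpace.SeparableSpace E] (x : ℕ → E)
    (f : ℕ → StrongDual 𝕜 E) (C : ℝ) (hf : ∀ n, ‖f n‖ ≤ C)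
    (hfx : ∀ i j, f i (x j) = if i = j then 1 else 0) :
    ∃ f' : ℕ → StrongDual 𝕜 E, (∀ i j, f' i (x j) = if i = j then 1 else 0) ∧
      (∀ n, ‖f' n‖ ≤ 2 * C) ∧ ∀ e, Tendsto (fun n => f' n e) atTop (𝓝 0) := by
  let Y : Submodule 𝕜 E := (Submodule.span 𝕜 (Set.range x)).topologicalClosure
  have hxY : ∀ n, x n ∈ Y := fun n =>
    Submodule.le_topologicalClosure _ (Submodule.subset_span ⟨n, rfl⟩)
  have hC0 : 0 ≤ C := (norm_nonneg _).trans (hf 0)
  obtain ⟨f', h1, h2, h3⟩ := exists_null_extension Y (fun n => (f n).comp Y.subtypeL) C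
    (fun n => by
      refine ContinuousLinearMap.opNorm_le_bound _ hC0 fun y => ?_
      refine ((f n).le_opNorm _).trans ?_
      exact mul_le_mul_of_nonneg_right (hf n) (norm_nonneg _))
    (fun y => by
      refine tendsto_zero_of_span_dense f C hf (Set.range x) ?_ y y.2
      rintro _ ⟨j, rfl⟩
      refine tendsto_const_nhds.congr' ?_
      filter_upwards [eventually_gt_atTop j] with n hn
      rw [hfx, if_neg hn.ne'])
  refine ⟨f', fun i j => ?_, h2, h3⟩
  have := h1 i ⟨x j, hxY j⟩
  rw [← hfx i j]
  exact this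

/-- Completion of a biorthogonal sequence with bounded functionals; no bounds for the new terms. -/
theorem complete_step [TopologicalSpace.SeparableSpace E] (x : ℕ → E)
    (f : ℕ → StrongDual 𝕜 E) (C : ℝ) (hf : ∀ n, ‖f n‖ ≤ C)
    (hfx : ∀ i j, f i (x j) = if i = j then 1 else 0) :
    ∃ (B : Set ℕ) (u : B → E) (h f' : ℕ → StrongDual 𝕜 E) (C' : ℝ),
      (∀ i j, f' i (x j) = if i = j then 1 else 0) ∧ (∀ n, ‖f' n‖ ≤ C') ∧
      (∀ n b, f' n (u b) = 0) ∧ (∀ m n, h m (x n) = 0) ∧
      (∀ b b' : B, h b (u b') = if b = b' then 1 else 0) ∧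
      (∀ m, ∀ y ∈ (Submodule.span 𝕜 (Set.range x)).topologicalClosure, h m y = 0) ∧
      (Submodule.span 𝕜 (Set.range x ∪ Set.range u)).topologicalClosure = ⊤ := by
  classical
  let Y : Submodule 𝕜 E := (Submodule.span 𝕜 (Set.range x)).topologicalClosure
  have hxY : ∀ n, x n ∈ Y := fun n =>
    Submodule.le_topologicalClosure _ (Submodule.subset_span ⟨n, rfl⟩)
  obtain ⟨g, hg1, hg2, hg3⟩ := null_modification x f C hf hfx
  obtain ⟨w, h, hY, hoff, hone, hd⟩ := exists_biorthogonal Y (TopologicalSpace.denseSeq E)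
  obtain ⟨y, f', hy1, hy2, hy3, hy4, hy5⟩ := dense_step Y x hxY g hg1 hg3 w h hY hoff hone 1
    zero_lt_one
  refine ⟨{m | w m ≠ 0}, fun m => w m - y m, h, f', 2 * C + 1, fun i j => ?_, fun n => ?_,
    fun n b => hy5 n b, fun m n => hY m _ (hxY n), ?_, hY, ?_⟩
  · rw [hy3 i _ (hxY j), hg1]
  · have h1 : f' n = g n - (g n - f' n) := by abel
    rw [h1]
    refine (norm_sub_le _ _).trans ?_
    linarith [hg2 n, hy4 n]
  · rintro ⟨b, hb⟩ ⟨b', hb'⟩
    rw [map_sub, hY b _ (hy1 b'), sub_zero]
    by_cases hbb : b = b'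
    · subst hbb
      rcases hone b with h' | h'
      · exact absurd h'.1 hb
      · rw [h', if_pos rfl]
    · rw [hoff b b' hbb, if_neg (fun h => hbb (congrArg Subtype.val h))]
  · rw [eq_top_iff]
    set Z : Submodule 𝕜 E := (Submodule.span 𝕜 (Set.range x ∪ Set.range
      fun m : {m | w m ≠ 0} => w m - y m)).topologicalClosure with hZ
    have hYZ : Y ≤ Z := by
      refine Submodule.topologicalClosure_mono (Submodule.span_mono ?_)
      exact Set.subset_union_left
    have hwZ : ∀ m, w m ∈ Z := by
      intro m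
      by_cases hm : w m = 0
      · rw [hm]; exact Z.zero_mem
      · have h2 : w m = y m + (w m - y m) := by abel
        rw [h2]
        refine Z.add_mem (hYZ (hy1 m)) (Submodule.le_topologicalClosure _
          (Submodule.subset_span (Or.inr ⟨⟨m, hm⟩, rfl⟩)))
    have hle : (Y ⊔ Submodule.span 𝕜 (Set.range w)).topologicalClosure ≤ Z := by
      refine Submodule.topologicalClosure_minimal _ (sup_le hYZ (Submodule.span_le.2 ?_))
        (Submodule.isClosed_topologicalClosure _)
      rintro _ ⟨m, rfl⟩
      exact hwZ m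
    intro e _
    have h3 : e ∈ closure (Set.range (TopologicalSpace.denseSeq E)) :=
      (TopologicalSpace.denseRange_denseSeq E) e
    have h4 : Set.range (TopologicalSpace.denseSeq E) ⊆ (Z : Set E) := by
      rintro _ ⟨m, rfl⟩
      exact hle (hd m)
    exact closure_minimal h4 (Submodule.isClosed_topologicalClosure _) h3

/-- Extension of a bounded biorthogonal sequence to a complete bounded biorthogonal sequence. -/
theorem extend_main [TopologicalSpace.SeparableSpace E] (x : ℕ → E)
    (f : ℕ → StrongDual 𝕜 E) (C : ℝ) (hx : ∀ n, ‖x n‖ ≤ C) (hf : ∀ n, ‖f n‖ ≤ C)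
    (hfx : ∀ i j, f i (x j) = if i = j then 1 else 0) :
    ∃ (z : ℕ → E) (G : ℕ → StrongDual 𝕜 E) (s : ℕ → ℕ) (C' : ℝ), StrictMono s ∧
      (∀ n, z (s n) = x n) ∧ (∀ i j, G i (z j) = if i = j then 1 else 0) ∧
      (∀ n, ‖z n‖ ≤ C') ∧ (∀ n, ‖G n‖ ≤ C') ∧
      (Submodule.span 𝕜 (Set.range z)).topologicalClosure = ⊤ := by
  classical
  have hC0 : 0 ≤ C := (norm_nonneg _).trans (hf 0)
  let Y : Submodule 𝕜 E := (Submodule.span 𝕜 (Set.range x)).topologicalClosure
  have hxY : ∀ n, x n ∈ Y := fun n =>
    Submodule.le_topologicalClosure _ (Submodule.subset_span ⟨n, rfl⟩)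
  have hYc : IsClosed (Y : Set E) := Submodule.isClosed_topologicalClosure _
  by_cases hfin : FiniteDimensional 𝕜 (E ⧸ Y)
  · -- finite codimension
    obtain ⟨B, u, h, f', C', h1, h2, h3, h4, h5, h6, h7⟩ := complete_step x f C hf hfx
    have hC'0 : 0 ≤ C' := (norm_nonneg _).trans (h2 0)
    have hBfin : Finite B := by
      have hli : LinearIndependent 𝕜 (fun b : B => (Submodule.Quotient.mk (u b) : E ⧸ Y)) := by
        rw [linearIndependent_iff']
        intro s a hs b hb
        have h8 : (∑ i ∈ s, a i • u i) ∈ Y := by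
          rw [← Submodule.Quotient.mk_eq_zero, ← Submodule.mkQ_apply, map_sum]
          simpa using hs
        have h9 := h6 b _ h8
        rw [map_sum, Finset.sum_eq_single b] at h9
        · simpa [h5] using h9
        · intro i _ hi
          rw [map_smul, h5, if_neg hi.symm, smul_zero]
        · intro hb'
          exact absurd hb hb'
      exact hli.finite
    have := Fintype.ofFinite B
    let r := Fintype.card B
    let eB : B ≃ Fin r := Fintype.equivFin B
    obtain ⟨C'', hC''⟩ : ∃ C'' : ℝ, ∀ b : B, ‖u b‖ + ‖h b‖ ≤ C'' := by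
      refine ⟨∑ b : B, (‖u b‖ + ‖h b‖), fun b => ?_⟩
      exact Finset.single_le_sum (f := fun b : B => ‖u b‖ + ‖h b‖)
        (fun i _ => by positivity) (Finset.mem_univ b)
    have hC''b : ∀ b : B, ‖u b‖ ≤ |C''| ∧ ‖h b‖ ≤ |C''| := by
      intro b
      have h8 := (hC'' b).trans (le_abs_self C'')
      exact ⟨by linarith [norm_nonneg (h b)], by linarith [norm_nonneg (u b)]⟩
    refine ⟨fun i => if hi : i < r then u (eB.symm ⟨i, hi⟩) else x (i - r),
      fun i => if hi : i < r then h (eB.symm ⟨i, hi⟩) else f' (i - r), fun n => r + n,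
      C + C' + |C''|, ?_, ?_, ?_, ?_, ?_, ?_⟩
    · intro m n hmn
      exact Nat.add_lt_add_left hmn r
    · intro n
      simp
    · intro i j
      by_cases hi : i < r
      · by_cases hj : j < r
        · simp only [hi, hj, dif_pos, h5]
          by_cases hij : i = j
          · subst hij; simp
          · rw [if_neg hij, if_neg]
            intro hh
            have := eB.symm.injective hh
            exact hij (by simpa using this)
        · simp only [hi, hj, dif_pos, dif_neg, not_false_eq_true, h4]
          rw [if_neg (by omega)]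
      · by_cases hj : j < r
        · simp only [hi, hj, dif_pos, dif_neg, not_false_eq_true, h3]
          rw [if_neg (by omega)]
        · simp only [hi, hj, dif_neg, not_false_eq_true, h1]
          by_cases hij : i = j
          · subst hij; simp
          · rw [if_neg hij, if_neg (by omega)]
    · intro n
      by_cases hn : n < r
      · simp only [hn, dif_pos]
        linarith [(hC''b (eB.symm ⟨n, hn⟩)).1]
      · simp only [hn, dif_neg, not_false_eq_true]
        linarith [hx (n - r), abs_nonneg C'']
    · intro n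
      by_cases hn : n < r
      · simp only [hn, dif_pos]
        linarith [(hC''b (eB.symm ⟨n, hn⟩)).2]
      · simp only [hn, dif_neg, not_false_eq_true]
        linarith [h2 (n - r), abs_nonneg C'']
    · rw [eq_top_iff, ← h7]
      refine Submodule.topologicalClosure_mono (Submodule.span_mono ?_)
      rintro _ (⟨n, rfl⟩ | ⟨b, rfl⟩)
      · exact ⟨r + n, by simp⟩
      · exact ⟨eB b, by simp⟩
  · -- infinite codimension
    obtain ⟨g, hg1, hg2, hg3⟩ := null_modification x f C hf hfx
    obtain ⟨d, γ, f1, C1, hd, hγ, hf1, hγY, hγd, hγd', hf1Y, hf1d⟩ :=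
      hump Y hYc hfin g (2 * C) hg2 hg3
    have hC10 : 0 ≤ C1 := (norm_nonneg _).trans (hd 0)
    let σ : ℕ ⊕ ℕ ≃ ℕ := Equiv.natSumNatEquivNat
    let x' : ℕ → E := fun i => Sum.elim x d (σ.symm i)
    let F : ℕ → StrongDual 𝕜 E := fun i => Sum.elim f1 γ (σ.symm i)
    have hx'n : ∀ i, ‖x' i‖ ≤ C + C1 := by
      intro i
      rcases hi : σ.symm i with a | a
      · simp only [x', hi, Sum.elim_inl]
        linarith [hx a]
      · simp only [x', hi, Sum.elim_inr]
        linarith [hd a]
    have hFn : ∀ i, ‖F i‖ ≤ C1 := by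
      intro i
      rcases hi : σ.symm i with a | a
      · simp only [F, hi, Sum.elim_inl]
        exact hf1 a
      · simp only [F, hi, Sum.elim_inr]
        exact hγ a
    have hFx' : ∀ i j, F i (x' j) = if i = j then 1 else 0 := by
      intro i j
      have hij : i = j ↔ σ.symm i = σ.symm j := σ.symm.injective.eq_iff.symm
      simp only [hij, F, x']
      rcases σ.symm i with a | a <;> rcases σ.symm j with b | b
      · simp only [Sum.elim_inl, Sum.inl.injEq]
        rw [hf1Y a _ (hxY b), hg1]
      · simp only [Sum.elim_inl, Sum.elim_inr, reduceCtorEq, if_false]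
        exact hf1d a b
      · simp only [Sum.elim_inl, Sum.elim_inr, reduceCtorEq, if_false]
        exact hγY a _ (hxY b)
      · simp only [Sum.elim_inr, Sum.inr.injEq]
        by_cases hab : a = b
        · rw [hab, hγd, if_pos rfl]
        · rw [hγd' a b hab, if_neg hab]
    obtain ⟨B, u, h, F', C2, h1, h2, h3, h4, h5, h6, h7⟩ := complete_step x' F C1 hFn hFx'
    have hC20 : 0 ≤ C2 := (norm_nonneg _).trans (h2 0)
    -- apply the mixing lemma
    let U : (B ⊕ ℕ) → E := Sum.elim u (fun k => d (2 * k))
    let H : (B ⊕ ℕ) → StrongDual 𝕜 E :=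
      Sum.elim (fun b => h b) (fun k => F' (σ (Sum.inr (2 * k))))
    let D : ℕ → E := fun k => d (2 * k + 1)
    let G : ℕ → StrongDual 𝕜 E := fun k => F' (σ (Sum.inr (2 * k + 1)))
    have hxs : ∀ n, x n = x' (σ (Sum.inl n)) := fun n => by simp [x']
    have hds : ∀ n, d n = x' (σ (Sum.inr n)) := fun n => by simp [x']
    have hF'd : ∀ i n, F' i (d n) = if i = σ (Sum.inr n) then 1 else 0 := fun i n => by
      rw [hds, h1]
    have hF'x : ∀ i n, F' i (x n) = if i = σ (Sum.inl n) then 1 else 0 := fun i n => by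
      rw [hxs, h1]
    have hhd : ∀ m n, h m (d n) = 0 := fun m n => by rw [hds, h4]
    have hhx : ∀ m n, h m (x n) = 0 := fun m n => by rw [hxs, h4]
    have hHU : ∀ b b', H b (U b') = if b = b' then 1 else 0 := by
      rintro (b | b) (b' | b')
      · simp [H, U, h5]
      · simp [H, U, hhd]
      · simp [H, U, h3]
      · simp [H, U, hF'd]
    obtain ⟨I, i1, i2, e, e', he1, he2, he3, he4, he5, he6, he7, he8⟩ :=
      mix (B ⊕ ℕ) U H D G (C1 + C2) (fun j => by linarith [hd (2 * j + 1)])
        (fun j => by linarith [h2 (σ (Sum.inr (2 * j + 1)))])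
        (fun b => by rw [hHU, if_pos rfl]) (fun b b' hbb => by rw [hHU, if_neg hbb])
        (fun j => by simp [G, D, hF'd]) (fun j j' hjj => by simp [G, D, hF'd, hjj])
        (by
          rintro (b | b) j
          · simp [H, D, hhd]
          · simp only [H, D, Sum.elim_inr, hF'd, EmbeddingLike.apply_eq_iff_eq, Sum.inr.injEq]
            rw [if_neg (by omega)])
        (by
          rintro j (b | b)
          · simp [G, U, h3]
          · simp only [G, U, Sum.elim_inr, hF'd, EmbeddingLike.apply_eq_iff_eq, Sum.inr.injEq]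
            rw [if_neg (by omega)])
    obtain ⟨eI⟩ : Nonempty (ℕ ≃ I) := nonempty_equiv_of_countable
    have hcross1 : ∀ n i, F' (σ (Sum.inl n)) (e i) = 0 := by
      intro n
      refine he5 _ ?_ ?_
      · rintro (b | b)
        · exact h3 _ b
        · simp [U, hF'd]
      · intro j
        simp [D, hF'd]
    have hcross2 : ∀ n i, e' i (x n) = 0 := by
      intro n
      refine he6 _ ?_ ?_
      · rintro (b | b)
        · exact hhx _ n
        · simp [H, hF'x]
      · intro j
        simp [G, hF'x]
    refine ⟨fun i => Sum.elim x (fun k => e (eI k)) (σ.symm i),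
      fun i => Sum.elim (fun n => F' (σ (Sum.inl n))) (fun k => e' (eI k)) (σ.symm i),
      fun n => σ (Sum.inl n), C + C1 + C2 + (3 * (C1 + C2) + 1), ?_, ?_, ?_, ?_, ?_, ?_⟩
    · intro m n hmn
      simp only [σ, Equiv.natSumNatEquivNat_apply, Sum.elim_inl]
      omega
    · intro n
      simp
    · intro i j
      have hij : i = j ↔ σ.symm i = σ.symm j := σ.symm.injective.eq_iff.symm
      simp only [hij]
      rcases σ.symm i with a | a <;> rcases σ.symm j with b | b
      · simp [hF'x]
      · simp [hcross1]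
      · simp [hcross2]
      · simp only [Sum.elim_inr, Sum.inr.injEq]
        by_cases hab : a = b
        · rw [hab, he1, if_pos rfl]
        · rw [he2 _ _ (fun hh => hab (eI.injective hh)), if_neg hab]
    · intro n
      rcases hi : σ.symm n with a | a
      · simp only [hi, Sum.elim_inl]
        linarith [hx a]
      · simp only [hi, Sum.elim_inr]
        linarith [he3 (eI a)]
    · intro n
      rcases hi : σ.symm n with a | a
      · simp only [hi, Sum.elim_inl]
        linarith [h2 (σ (Sum.inl a))]
      · simp only [hi, Sum.elim_inr]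
        linarith [he4 (eI a)]
    · rw [eq_top_iff, ← h7]
      refine Submodule.topologicalClosure_mono ?_
      set Z : Submodule 𝕜 E := Submodule.span 𝕜 (Set.range fun i =>
        Sum.elim x (fun k => e (eI k)) (σ.symm i)) with hZ
      have hxZ : ∀ n, x n ∈ Z := fun n => Submodule.subset_span ⟨σ (Sum.inl n), by simp⟩
      have heZ : Submodule.span 𝕜 (Set.range e) ≤ Z := by
        rw [Submodule.span_le]
        rintro _ ⟨i, rfl⟩
        exact Submodule.subset_span ⟨σ (Sum.inr (eI.symm i)), by simp⟩
      have hUZ : ∀ b, U b ∈ Z := fun b => heZ (he7 b)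
      have hdZ : ∀ n, d n ∈ Z := by
        intro n
        rcases Nat.even_or_odd' n with ⟨k, hk | hk⟩
        · rw [hk]
          exact hUZ (Sum.inr k)
        · rw [hk]
          exact heZ (he8 k)
      rw [Submodule.span_le]
      rintro _ (⟨n, rfl⟩ | ⟨b, rfl⟩)
      · change Sum.elim x d (σ.symm n) ∈ Z
        rcases σ.symm n with a | a
        · exact hxZ a
        · exact hdZ a
      · exact hUZ (Sum.inl b)

end

end Pool.Agent.H773R2
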